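import Pool.Agent.Lib.MP_3a4792_mp.PlainStmt
import Pool.Agent.Lib.MP_3a4792_mp.Plain

/-!
# Simon's conjecture on square integrable potentials is false in dimension two

For every `Λ > 0` there is a smooth bounded potential `V` on the plane with
`∫ |x|⁻¹ |V(x)|² dx < ∞` such that `-Δ+V` is essentially self-adjoint on test functions and its
closure has no absolutely continuous spectrum in `(0,Λ)`.
-/

open MeasureTheory Set SimonL2
open scoped ContDiff

namespace Pool.Agent.Results.MP_3a4792_mp.SimonL2Disproof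

theorem result : ∀ Λ : ℝ, 0 < Λ → ∃ V : EuclideanSpace ℝ (Fin 2) → ℝ, ContDiff ℝ ∞ V ∧
      (∃ h : ℝ, ∀ x, |V x| ≤ h) ∧ Integrable (fun x => ‖x‖⁻¹ * V x ^ 2) ∧
      EssSelfAdjoint 2 V ∧ NoAC 2 V Λ :=
  MP3a4792.main_plain

end Pool.Agent.Results.MP_3a4792_mp.SimonL2Disproof
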